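import Pool.Agent.W544.K3.Defs

open Module Finset

namespace Pool.Agent.W351.K3Eq
open Pool.Agent.W544.K3

section
variable {U : Type} [AddCommGroup U] [Module ℝ U]

/-- The table of the values of the form on the four vectors. -/
structure Tab (B : U →ₗ[ℝ] U →ₗ[ℝ] ℝ) (e₁ f₁ e₂ f₂ : U) : Prop where
  sym : ∀ u v, B u v = B v u
  a11 : B e₁ e₁ = 0
  a12 : B e₁ f₁ = 1
  a13 : B e₁ e₂ = 0
  a14 : B e₁ f₂ = 0
  a21 : B f₁ e₁ = 1
  a22 : B f₁ f₁ = 0
  a23 : B f₁ e₂ = 0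
  a24 : B f₁ f₂ = 0
  a31 : B e₂ e₁ = 0
  a32 : B e₂ f₁ = 0
  a33 : B e₂ e₂ = 0
  a34 : B e₂ f₂ = 1
  a41 : B f₂ e₁ = 0
  a42 : B f₂ f₁ = 0
  a43 : B f₂ e₂ = 1
  a44 : B f₂ f₂ = 0
  neg : ∀ v, v ≠ 0 → B e₁ v = 0 → B f₁ v = 0 → B e₂ v = 0 → B f₂ v = 0 → B v v < 0

variable {B : U →ₗ[ℝ] U →ₗ[ℝ] ℝ} {e₁ f₁ e₂ f₂ : U}

theorem tab (H : Hyp2 B e₁ f₁ e₂ f₂) : Tab B e₁ f₁ e₂ f₂ := by
  obtain ⟨hs, ⟨h1, h2, h3⟩, ⟨h4, h5, h6⟩, h7, h8, h9, h10, hneg⟩ := H
  exact ⟨hs, h1, h3, h7, h8, by rw [hs]; exact h3, h2, h9, h10, by rw [hs]; exact h7,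
    by rw [hs]; exact h9, h4, h6, by rw [hs]; exact h8, by rw [hs]; exact h10,
    by rw [hs]; exact h6, h5, hneg⟩

theorem Tab.swap (T : Tab B e₁ f₁ e₂ f₂) : Tab B e₂ f₂ e₁ f₁ :=
  ⟨T.sym, T.a33, T.a34, T.a31, T.a32, T.a43, T.a44, T.a41, T.a42, T.a13, T.a14, T.a11, T.a12,
    T.a23, T.a24, T.a21, T.a22, fun v hv h1 h2 h3 h4 => T.neg v hv h3 h4 h1 h2⟩

theorem x_apply (w : U) : (wedge B f₁ e₁ + wedge B f₂ e₂) w =
    (B f₁ w • e₁ - B e₁ w • f₁) + (B f₂ w • e₂ - B e₂ w • f₂) := by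
  rw [LinearMap.add_apply, wedge_apply, wedge_apply]

theorem Tab.bf1 (T : Tab B e₁ f₁ e₂ f₂) (w : U) :
    B f₁ ((wedge B f₁ e₁ + wedge B f₂ e₂) w) = B f₁ w := by
  rw [x_apply]
  simp only [map_add, map_sub, map_smul, smul_eq_mul, T.a21, T.a22, T.a23, T.a24]
  ring

theorem Tab.bf2 (T : Tab B e₁ f₁ e₂ f₂) (w : U) :
    B f₂ ((wedge B f₁ e₁ + wedge B f₂ e₂) w) = B f₂ w := by
  rw [x_apply]
  simp only [map_add, map_sub, map_smul, smul_eq_mul, T.a41, T.a42, T.a43, T.a44]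
  ring

theorem Tab.be1 (T : Tab B e₁ f₁ e₂ f₂) (w : U) :
    B e₁ ((wedge B f₁ e₁ + wedge B f₂ e₂) w) = -B e₁ w := by
  rw [x_apply]
  simp only [map_add, map_sub, map_smul, smul_eq_mul, T.a11, T.a12, T.a13, T.a14]
  ring

theorem Tab.be2 (T : Tab B e₁ f₁ e₂ f₂) (w : U) :
    B e₂ ((wedge B f₁ e₁ + wedge B f₂ e₂) w) = -B e₂ w := by
  rw [x_apply]
  simp only [map_add, map_sub, map_smul, smul_eq_mul, T.a31, T.a32, T.a33, T.a34]
  ring

theorem Tab.xe1 (T : Tab B e₁ f₁ e₂ f₂) : (wedge B f₁ e₁ + wedge B f₂ e₂) e₁ = e₁ := by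
  rw [x_apply]; simp only [T.a11, T.a21, T.a31, T.a41]; simp

theorem Tab.xf1 (T : Tab B e₁ f₁ e₂ f₂) : (wedge B f₁ e₁ + wedge B f₂ e₂) f₁ = -f₁ := by
  rw [x_apply]; simp only [T.a12, T.a22, T.a32, T.a42]; simp

theorem Tab.xe2 (T : Tab B e₁ f₁ e₂ f₂) : (wedge B f₁ e₁ + wedge B f₂ e₂) e₂ = e₂ := by
  rw [x_apply]; simp only [T.a13, T.a23, T.a33, T.a43]; simp

theorem Tab.xf2 (T : Tab B e₁ f₁ e₂ f₂) : (wedge B f₁ e₁ + wedge B f₂ e₂) f₂ = -f₂ := by
  rw [x_apply]; simp only [T.a14, T.a24, T.a34, T.a44]; simp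

theorem Tab.n1 (T : Tab B e₁ f₁ e₂ f₂) {w : U} {μ : ℝ}
    (h : (wedge B f₁ e₁ + wedge B f₂ e₂) w = μ • w) (hμ : μ ≠ 1) : B f₁ w = 0 ∧ B f₂ w = 0 := by
  have h1 := congrArg (B f₁) h
  have h2 := congrArg (B f₂) h
  rw [T.bf1, map_smul, smul_eq_mul] at h1
  rw [T.bf2, map_smul, smul_eq_mul] at h2
  have hm : μ - 1 ≠ 0 := sub_ne_zero.2 hμ
  constructor
  · have : (μ - 1) * B f₁ w = 0 := by linarith
    rcases mul_eq_zero.1 this with h | h
    · exact absurd h hm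
    · exact h
  · have : (μ - 1) * B f₂ w = 0 := by linarith
    rcases mul_eq_zero.1 this with h | h
    · exact absurd h hm
    · exact h

theorem Tab.n2 (T : Tab B e₁ f₁ e₂ f₂) {w : U} {μ : ℝ}
    (h : (wedge B f₁ e₁ + wedge B f₂ e₂) w = μ • w) (hμ : μ ≠ -1) : B e₁ w = 0 ∧ B e₂ w = 0 := by
  have h1 := congrArg (B e₁) h
  have h2 := congrArg (B e₂) h
  rw [T.be1, map_smul, smul_eq_mul] at h1
  rw [T.be2, map_smul, smul_eq_mul] at h2
  have hm : μ + 1 ≠ 0 := fun h => hμ (by linarith)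
  constructor
  · have : (μ + 1) * B e₁ w = 0 := by linarith
    rcases mul_eq_zero.1 this with h | h
    · exact absurd h hm
    · exact h
  · have : (μ + 1) * B e₂ w = 0 := by linarith
    rcases mul_eq_zero.1 this with h | h
    · exact absurd h hm
    · exact h

theorem Tab.n3 (T : Tab B e₁ f₁ e₂ f₂) {w : U} {μ : ℝ}
    (h : (wedge B f₁ e₁ + wedge B f₂ e₂) w = μ • w) (hμ : μ ≠ 1) (hμ' : μ ≠ -1) (h0 : μ ≠ 0) :
    w = 0 := by
  obtain ⟨h1, h2⟩ := T.n1 h hμ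
  obtain ⟨h3, h4⟩ := T.n2 h hμ'
  rw [x_apply, h1, h2, h3, h4] at h
  simp only [zero_smul, sub_zero, add_zero] at h
  rcases smul_eq_zero.1 h.symm with h | h
  · exact absurd h h0
  · exact h

theorem Tab.n4 (T : Tab B e₁ f₁ e₂ f₂) {w : U}
    (h : (wedge B f₁ e₁ + wedge B f₂ e₂) w = (1 : ℝ) • w) : w = B f₁ w • e₁ + B f₂ w • e₂ := by
  obtain ⟨h3, h4⟩ := T.n2 h (by norm_num)
  have h5 := h
  rw [x_apply, h3, h4] at h5
  simp only [zero_smul, sub_zero, one_smul] at h5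
  exact h5.symm

theorem Tab.n5 (T : Tab B e₁ f₁ e₂ f₂) {w : U}
    (h : (wedge B f₁ e₁ + wedge B f₂ e₂) w = (-1 : ℝ) • w) : w = B e₁ w • f₁ + B e₂ w • f₂ := by
  obtain ⟨h3, h4⟩ := T.n1 h (by norm_num)
  have h5 := h
  rw [x_apply, h3, h4] at h5
  simp only [zero_smul, zero_sub, neg_smul, one_smul] at h5
  have h6 : w = -(-w) := (neg_neg w).symm
  rw [← h5] at h6
  rw [neg_add, neg_neg, neg_neg] at h6
  exact h6

/-- eigenvalues add -/
theorem hom_ev {x y : End ℝ U} {α μ : ℝ} (hy : Hom x α y) {u : U} (hu : x u = μ • u) :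
    x (y u) = (μ + α) • y u := by
  have h := LinearMap.congr_fun hy u
  simp only [LinearMap.sub_apply, Module.End.mul_apply, LinearMap.smul_apply] at h
  rw [hu, map_smul] at h
  rw [add_smul, ← h]
  abel

theorem Tab.xz (T : Tab B e₁ f₁ e₂ f₂) (u : U) :
    (wedge B f₁ e₁ + wedge B f₂ e₂)
      (u - (B f₁ u • e₁ + B f₂ u • e₂) - (B e₁ u • f₁ + B e₂ u • f₂)) = (0 : ℝ) • (
      (u - (B f₁ u • e₁ + B f₂ u • e₂) - (B e₁ u • f₁ + B e₂ u • f₂))) := by
  rw [zero_smul]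
  simp only [map_sub, map_add, map_smul, T.xe1, T.xe2, T.xf1, T.xf2]
  rw [x_apply]
  module

theorem Tab.diag (T : Tab B e₁ f₁ e₂ f₂) : Diag (wedge B f₁ e₁ + wedge B f₂ e₂) := by
  rw [Diag, eq_top_iff]
  intro u _
  have hd : u = (B f₁ u • e₁ + B f₂ u • e₂) + (B e₁ u • f₁ + B e₂ u • f₂) +
      (u - (B f₁ u • e₁ + B f₂ u • e₂) - (B e₁ u • f₁ + B e₂ u • f₂)) := by abel
  rw [hd]
  have hle : ∀ μ : ℝ, End.eigenspace (wedge B f₁ e₁ + wedge B f₂ e₂) μ ≤
    ⨆ μ : ℝ, End.eigenspace (wedge B f₁ e₁ + wedge B f₂ e₂) μ := fun μ => le_iSup _ μ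
  refine Submodule.add_mem _ (Submodule.add_mem _ (hle 1 ?_) (hle (-1) ?_)) (hle 0 ?_)
  · rw [End.mem_eigenspace_iff]
    simp only [map_add, map_smul, T.xe1, T.xe2]
    rw [one_smul]
  · rw [End.mem_eigenspace_iff]
    simp only [map_add, map_smul, T.xf1, T.xf2]
    module
  · rw [End.mem_eigenspace_iff]
    exact T.xz u

/-- the projection to the span of `e₁, e₂` -/
def pr (B : U →ₗ[ℝ] U →ₗ[ℝ] ℝ) (e₁ f₁ e₂ f₂ : U) : U →ₗ[ℝ] U :=
  (B f₁).smulRight e₁ + (B f₂).smulRight e₂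

theorem pr_apply (u : U) : pr B e₁ f₁ e₂ f₂ u = B f₁ u • e₁ + B f₂ u • e₂ := by
  simp [pr]

/-- a complex line -/
def L (v₁ v₂ : U) : Submodule ℝ (U × U) where
  carrier := {p | ∃ s t : ℝ, p.1 = s • v₁ - t • v₂ ∧ p.2 = s • v₂ + t • v₁}
  zero_mem' := ⟨0, 0, by simp, by simp⟩
  add_mem' := by
    rintro p q ⟨s, t, h1, h2⟩ ⟨s', t', h3, h4⟩
    refine ⟨s + s', t + t', ?_, ?_⟩
    · rw [Prod.fst_add, h1, h3]; module
    · rw [Prod.snd_add, h2, h4]; module
  smul_mem' := by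
    rintro a p ⟨s, t, h1, h2⟩
    refine ⟨a * s, a * t, ?_, ?_⟩
    · rw [Prod.smul_fst, h1]; module
    · rw [Prod.smul_snd, h2]; module

theorem mem_L {v₁ v₂ : U} {p : U × U} :
    p ∈ L v₁ v₂ ↔ ∃ s t : ℝ, p.1 = s • v₁ - t • v₂ ∧ p.2 = s • v₂ + t • v₁ := Iff.rfl

/-- no complex line in the plane of `e₁, e₂` is preserved by all operators of degree zero -/
theorem noline [FiniteDimensional ℝ U] (hclos : S_clos) {h n : Submodule ℝ (End ℝ U)}
    (D : Dat B h n)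
    (T : Tab B e₁ f₁ e₂ f₂) (hx : wedge B f₁ e₁ + wedge B f₂ e₂ ∈ n) (v₁ v₂ : U) (hv : v₁ ≠ 0)
    (hv1 : v₁ = B f₁ v₁ • e₁ + B f₂ v₁ • e₂) (hv2 : v₂ = B f₁ v₂ • e₁ + B f₂ v₂ • e₂)
    (hA : ∀ A ∈ h, Hom (wedge B f₁ e₁ + wedge B f₂ e₂) 0 A →
      ∃ s t : ℝ, A v₁ = s • v₁ - t • v₂ ∧ A v₂ = s • v₂ + t • v₁) : False := by
  have e1ne : e₁ ≠ 0 := by
    intro h0
    have := T.a12
    rw [h0] at this
    simp at this
  have hprX : ∀ (w : U) (μ : ℝ), (wedge B f₁ e₁ + wedge B f₂ e₂) w = μ • w → μ ≠ 1 →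
      pr B e₁ f₁ e₂ f₂ w = 0 := by
    intro w μ hw hμ
    obtain ⟨h1, h2⟩ := T.n1 hw hμ
    rw [pr_apply, h1, h2]; simp
  have hprv1 : pr B e₁ f₁ e₂ f₂ v₁ = v₁ := by rw [pr_apply]; exact hv1.symm
  have hprv2 : pr B e₁ f₁ e₂ f₂ v₂ = v₂ := by rw [pr_apply]; exact hv2.symm
  have hpre1 : pr B e₁ f₁ e₂ f₂ e₁ = e₁ := by rw [pr_apply, T.a21, T.a41]; simp
  have hpre2 : pr B e₁ f₁ e₂ f₂ e₂ = e₂ := by rw [pr_apply, T.a23, T.a43]; simp
  have hxp : ∀ u, (wedge B f₁ e₁ + wedge B f₂ e₂) (pr B e₁ f₁ e₂ f₂ u) =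
      (1 : ℝ) • pr B e₁ f₁ e₂ f₂ u := by
    intro u
    rw [pr_apply]
    simp only [map_add, map_smul, T.xe1, T.xe2]
    rw [one_smul]
  have hxf : ∀ a b : ℝ, (wedge B f₁ e₁ + wedge B f₂ e₂) (a • f₁ + b • f₂) =
      (-1 : ℝ) • (a • f₁ + b • f₂) := by
    intro a b
    simp only [map_add, map_smul, T.xf1, T.xf2]
    module
  -- the projection of y u
  have hpy : ∀ α : ℝ, α ≤ 0 → ∀ y, Hom (wedge B f₁ e₁ + wedge B f₂ e₂) α y → ∀ u,
      pr B e₁ f₁ e₂ f₂ (y u) = pr B e₁ f₁ e₂ f₂ (y (pr B e₁ f₁ e₂ f₂ u)) := by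
    intro α hα y hy u
    have hd : u = pr B e₁ f₁ e₂ f₂ u + (B e₁ u • f₁ + B e₂ u • f₂) +
      (u - (B f₁ u • e₁ + B f₂ u • e₂) - (B e₁ u • f₁ + B e₂ u • f₂)) := by
      rw [pr_apply]; abel
    conv_lhs => rw [hd]
    rw [map_add, map_add, map_add, map_add]
    rw [hprX _ _ (hom_ev hy (hxf (B e₁ u) (B e₂ u))) (by intro h; linarith),
      hprX _ _ (hom_ev hy (T.xz u)) (by intro h; linarith), add_zero, add_zero]
  have htop := hclos U (wedge B f₁ e₁ + wedge B f₂ e₂) h T.diag (D.sub hx) D.lie D.irr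
    (L v₁ v₂) ((L v₁ v₂).comap ((pr B e₁ f₁ e₂ f₂).prodMap (pr B e₁ f₁ e₂ f₂))) ?_ ?_ ?_ ?_ ?_ ?_
  · -- the contradiction
    have m1 : ((e₁, 0) : U × U) ∈
        (L v₁ v₂).comap ((pr B e₁ f₁ e₂ f₂).prodMap (pr B e₁ f₁ e₂ f₂)) := by
      rw [htop]; trivial
    have m2 : ((e₂, 0) : U × U) ∈
        (L v₁ v₂).comap ((pr B e₁ f₁ e₂ f₂).prodMap (pr B e₁ f₁ e₂ f₂)) := by
      rw [htop]; trivial
    rw [Submodule.mem_comap] at m1 m2
    obtain ⟨s, t, h1, h2⟩ := m1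
    obtain ⟨s', t', h3, h4⟩ := m2
    simp only [LinearMap.prodMap_apply, hpre1, hpre2, map_zero] at h1 h2 h3 h4
    have h5 : (s ^ 2 + t ^ 2) • v₁ = s • e₁ := by
      have : (s ^ 2 + t ^ 2) • v₁ = s • (s • v₁ - t • v₂) + t • (s • v₂ + t • v₁) := by module
      rw [this, ← h1, ← h2, smul_zero, add_zero]
    have h6 : (s ^ 2 + t ^ 2) • v₂ = -(t • e₁) := by
      have : (s ^ 2 + t ^ 2) • v₂ = s • (s • v₂ + t • v₁) - t • (s • v₁ - t • v₂) := by module
      rw [this, ← h1, ← h2, smul_zero, zero_sub]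
    have h7 : (s ^ 2 + t ^ 2) • e₂ = (s' * s + t' * t) • e₁ := by
      have : (s ^ 2 + t ^ 2) • e₂ = s' • ((s ^ 2 + t ^ 2) • v₁) - t' • ((s ^ 2 + t ^ 2) • v₂) := by
        rw [h3]; module
      rw [this, h5, h6]; module
    have h8 := congrArg (B f₂) h7
    rw [map_smul, map_smul, T.a43, T.a41] at h8
    simp only [smul_eq_mul, mul_one, mul_zero] at h8
    have hs : s = 0 := by nlinarith [sq_nonneg s, sq_nonneg t]
    have ht : t = 0 := by nlinarith [sq_nonneg s, sq_nonneg t]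
    rw [hs, ht] at h1
    simp only [zero_smul, sub_zero] at h1
    exact e1ne h1
  · rintro p ⟨s, t, h1, h2⟩
    refine ⟨-t, s, ?_, ?_⟩
    · show -p.2 = _
      rw [h2]; module
    · show p.1 = _
      rw [h1]; module
  · intro p hp
    rw [Submodule.mem_comap] at hp ⊢
    obtain ⟨s, t, h1, h2⟩ := hp
    simp only [LinearMap.prodMap_apply] at h1 h2
    refine ⟨-t, s, ?_, ?_⟩
    · simp only [LinearMap.prodMap_apply, map_neg]
      rw [h2]; module
    · simp only [LinearMap.prodMap_apply]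
      rw [h1]; module
  · rintro p ⟨s, t, h1, h2⟩
    rw [Submodule.mem_comap]
    refine ⟨s, t, ?_, ?_⟩
    · simp only [LinearMap.prodMap_apply]
      rw [h1, map_sub, map_smul, map_smul, hprv1, hprv2]
    · simp only [LinearMap.prodMap_apply]
      rw [h2, map_add, map_smul, map_smul, hprv1, hprv2]
  · intro hbot
    have : ((v₁, v₂) : U × U) ∈ L v₁ v₂ := ⟨1, 0, by simp, by simp⟩
    rw [hbot, Submodule.mem_bot] at this
    exact hv (congrArg Prod.fst this)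
  · intro α hα y _ hy p hp
    have hk : ∀ u, y (pr B e₁ f₁ e₂ f₂ u) = 0 := fun u =>
      T.n3 (hom_ev hy (hxp u)) (by intro h; linarith) (by intro h; linarith)
        (by intro h; linarith)
    have k1 : y v₁ = 0 := by rw [← hprv1]; exact hk _
    have k2 : y v₂ = 0 := by rw [← hprv2]; exact hk _
    obtain ⟨s, t, h1, h2⟩ := hp
    rw [h1, h2]
    constructor
    · rw [map_sub, map_smul, map_smul, k1, k2]; simp
    · rw [map_add, map_smul, map_smul, k1, k2]; simp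
  · intro α hα y hyh hy p hp
    rw [Submodule.mem_comap] at hp ⊢
    obtain ⟨s, t, h1, h2⟩ := hp
    simp only [LinearMap.prodMap_apply] at h1 h2
    rcases lt_or_eq_of_le hα with hlt | heq
    · have hz : ∀ u, pr B e₁ f₁ e₂ f₂ (y u) = 0 := by
        intro u
        rw [hpy α hα y hy u]
        exact hprX _ _ (hom_ev hy (hxp u)) (by intro h; linarith)
      refine ⟨0, 0, ?_, ?_⟩
      · simp only [LinearMap.prodMap_apply, hz]; simp
      · simp only [LinearMap.prodMap_apply, hz]; simp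
    · subst heq
      have hz : ∀ u, pr B e₁ f₁ e₂ f₂ (y u) = y (pr B e₁ f₁ e₂ f₂ u) := by
        intro u
        rw [hpy 0 le_rfl y hy u]
        have := T.n4 (w := y (pr B e₁ f₁ e₂ f₂ u)) (by
          have := hom_ev hy (hxp u)
          rw [add_zero] at this
          exact this)
        rw [pr_apply (u := y (pr B e₁ f₁ e₂ f₂ u))]
        exact this.symm
      obtain ⟨s', t', h3, h4⟩ := hA y hyh hy
      refine ⟨s * s' - t * t', s * t' + t * s', ?_, ?_⟩
      · simp only [LinearMap.prodMap_apply, hz]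
        rw [h1, map_sub, map_smul, map_smul, h3, h4]; module
      · simp only [LinearMap.prodMap_apply, hz]
        rw [h2, map_add, map_smul, map_smul, h3, h4]; module


/-- operators of degree zero preserve the plane of `e₁, e₂` -/
theorem Tab.pres (T : Tab B e₁ f₁ e₂ f₂) {A : End ℝ U}
    (hA : Hom (wedge B f₁ e₁ + wedge B f₂ e₂) 0 A) {u : U}
    (hu : (wedge B f₁ e₁ + wedge B f₂ e₂) u = (1 : ℝ) • u) :
    A u = B f₁ (A u) • e₁ + B f₂ (A u) • e₂ := by
  have := hom_ev hA hu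
  rw [add_zero] at this
  exact T.n4 this

theorem hom_comb {x A C : End ℝ U} (hA : Hom x 0 A) (hC : Hom x 0 C) (a b : ℝ) :
    Hom x 0 (a • A + b • C) := by
  unfold Hom at *
  rw [zero_smul] at *
  rw [mul_add, add_mul, mul_smul_comm, mul_smul_comm, smul_mul_assoc, smul_mul_assoc]
  have h1 : x * A = A * x := sub_eq_zero.1 hA
  have h2 : x * C = C * x := sub_eq_zero.1 hC
  rw [h1, h2, sub_self]

/-- some operator of degree zero has distinct real eigenvalues on the plane of `e₁, e₂` -/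
theorem exists_disc [FiniteDimensional ℝ U] (hclos : S_clos) {h n : Submodule ℝ (End ℝ U)}
    (D : Dat B h n)
    (T : Tab B e₁ f₁ e₂ f₂) (hx : wedge B f₁ e₁ + wedge B f₂ e₂ ∈ n) :
    ∃ A ∈ h, Hom (wedge B f₁ e₁ + wedge B f₂ e₂) 0 A ∧
      0 < (B f₁ (A e₁) - B f₂ (A e₂)) ^ 2 + 4 * (B f₁ (A e₂) * B f₂ (A e₁)) := by
  by_contra hcon
  push Not at hcon
  have e1ne : e₁ ≠ 0 := by
    intro h0
    have := T.a12
    rw [h0] at this
    simp at this
  have hxe1 : (wedge B f₁ e₁ + wedge B f₂ e₂) e₁ = (1 : ℝ) • e₁ := by rw [T.xe1, one_smul]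
  have hxe2 : (wedge B f₁ e₁ + wedge B f₂ e₂) e₂ = (1 : ℝ) • e₂ := by rw [T.xe2, one_smul]
  by_cases hr : ∀ A ∈ h, Hom (wedge B f₁ e₁ + wedge B f₂ e₂) 0 A → B f₂ (A e₁) = 0
  · refine noline hclos D T hx e₁ 0 e1ne ?_ ?_ ?_
    · rw [T.a21, T.a41]; simp
    · simp
    · intro A hAh hA
      refine ⟨B f₁ (A e₁), 0, ?_, ?_⟩
      · have := T.pres hA hxe1
        rw [hr A hAh hA] at this
        rw [zero_smul, add_zero] at this
        rw [smul_zero, sub_zero]
        exact this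
      · simp
  · push Not at hr
    obtain ⟨A₀, hA₀h, hA₀, hr0⟩ := hr
    obtain ⟨p0, hp0⟩ : ∃ p, p = (B f₁ (A₀ e₁) - B f₂ (A₀ e₂)) / 2 := ⟨_, rfl⟩
    obtain ⟨s0, hs0⟩ : ∃ p, p = (B f₁ (A₀ e₁) + B f₂ (A₀ e₂)) / 2 := ⟨_, rfl⟩
    obtain ⟨q0, hq0⟩ : ∃ q, q = B f₁ (A₀ e₂) := ⟨_, rfl⟩
    obtain ⟨r0, hr0'⟩ : ∃ q, q = B f₂ (A₀ e₁) := ⟨_, rfl⟩
    have E1 : A₀ e₁ = (s0 + p0) • e₁ + r0 • e₂ := by
      have := T.pres hA₀ hxe1
      rw [this]
      rw [hr0', hs0, hp0]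
      congr 2
      ring
    have E2 : A₀ e₂ = q0 • e₁ + (s0 - p0) • e₂ := by
      have := T.pres hA₀ hxe2
      rw [this]
      rw [hq0, hs0, hp0]
      congr 2
      ring
    rw [← hr0'] at hr0
    have hD : p0 ^ 2 + q0 * r0 ≤ 0 := by
      have := hcon A₀ hA₀h hA₀
      rw [← hr0', ← hq0] at this
      have h2 : B f₁ (A₀ e₁) - B f₂ (A₀ e₂) = 2 * p0 := by rw [hp0]; ring
      rw [h2] at this
      nlinarith
    obtain ⟨δ, hδ⟩ : ∃ δ, δ = Real.sqrt (-(p0 ^ 2 + q0 * r0)) := ⟨_, rfl⟩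
    have hδ2 : δ * δ = -(p0 ^ 2 + q0 * r0) := by
      rw [hδ]; exact Real.mul_self_sqrt (by linarith)
    refine noline hclos D T hx (p0 • e₁ + r0 • e₂) (δ • e₁) ?_ ?_ ?_ ?_
    · intro h0
      have := congrArg (B f₂) h0
      rw [map_add, map_smul, map_smul, T.a41, T.a43, map_zero] at this
      simp only [smul_eq_mul, mul_zero, mul_one, zero_add] at this
      exact hr0 this
    · simp only [map_add, map_smul, T.a41, T.a43, T.a21, T.a23]
      simp
    · simp only [map_smul, T.a41, T.a21]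
      simp
    · intro A hAh hA
      -- subtract a multiple of A₀
      obtain ⟨τ, hτ⟩ : ∃ τ, τ = B f₂ (A e₁) / r0 := ⟨_, rfl⟩
      obtain ⟨C, hC⟩ : ∃ C, C = (1 : ℝ) • A + (-τ) • A₀ := ⟨_, rfl⟩
      have hCh : C ∈ h := by
        rw [hC]
        exact h.add_mem (h.smul_mem _ hAh) (h.smul_mem _ hA₀h)
      have hChom : Hom (wedge B f₁ e₁ + wedge B f₂ e₂) 0 C := by
        rw [hC]; exact hom_comb hA hA₀ _ _
      have c21 : B f₂ (C e₁) = 0 := by
        rw [hC]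
        simp only [LinearMap.add_apply, LinearMap.smul_apply, map_add, map_smul, smul_eq_mul]
        rw [← hr0', hτ]
        field_simp
        ring
      obtain ⟨q, hq⟩ : ∃ q, q = B f₁ (C e₂) := ⟨_, rfl⟩
      obtain ⟨a, ha⟩ : ∃ q, q = B f₁ (C e₁) := ⟨_, rfl⟩
      obtain ⟨d, hd⟩ : ∃ q, q = B f₂ (C e₂) := ⟨_, rfl⟩
      have had : a = d := by
        have := hcon C hCh hChom
        rw [c21, ← ha, ← hd, mul_zero, mul_zero, add_zero] at this
        nlinarith [sq_nonneg (a - d)]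
      have hqz : q = 0 := by
        by_contra hq0'
        obtain ⟨ε, hε⟩ : ∃ ε, ε = q * r0 / (1 - (p0 ^ 2 + q0 * r0)) := ⟨_, rfl⟩
        have hC' := hcon ((1 : ℝ) • C + ε • A₀)
          (h.add_mem (h.smul_mem _ hCh) (h.smul_mem _ hA₀h)) (hom_comb hChom hA₀ _ _)
        simp only [LinearMap.add_apply, LinearMap.smul_apply, map_add, map_smul, smul_eq_mul,
          one_mul, c21, zero_add] at hC'
        rw [← hr0', ← hq, ← hq0, ← ha, ← hd, had] at hC'
        have h2 : d + ε * B f₁ (A₀ e₁) - (d + ε * B f₂ (A₀ e₂)) = 2 * (ε * p0) := by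
          rw [hp0]; ring
        rw [h2] at hC'
        have h3 : ε ^ 2 * (p0 ^ 2 + q0 * r0) + ε * (q * r0) ≤ 0 := by nlinarith
        have hpos : 0 < 1 - (p0 ^ 2 + q0 * r0) := by linarith
        have h4 : q * r0 = ε * (1 - (p0 ^ 2 + q0 * r0)) := by
          rw [hε, div_mul_cancel₀ _ hpos.ne']
        rw [h4] at h3
        have h5 : ε ^ 2 ≤ 0 := by nlinarith
        have h6 : ε = 0 := by nlinarith [sq_nonneg ε]
        rw [h6, zero_mul] at h4
        rcases mul_eq_zero.1 h4 with h | h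
        · exact hq0' h
        · exact hr0 h
      have C1 : C e₁ = d • e₁ := by
        have := T.pres hChom hxe1
        rw [this, c21, ← ha, had]; simp
      have C2 : C e₂ = d • e₂ := by
        have := T.pres hChom hxe2
        rw [this, ← hq, hqz, ← hd]; simp
      have hAe : ∀ u, A u = C u + τ • A₀ u := by
        intro u
        rw [hC]
        simp only [LinearMap.add_apply, LinearMap.smul_apply]
        module
      have A1 : A e₁ = d • e₁ + τ • ((s0 + p0) • e₁ + r0 • e₂) := by rw [hAe, C1, E1]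
      have A2 : A e₂ = d • e₂ + τ • (q0 • e₁ + (s0 - p0) • e₂) := by rw [hAe, C2, E2]
      refine ⟨d + τ * s0, τ * δ, ?_, ?_⟩
      · rw [map_add, map_smul, map_smul, A1, A2]
        rw [smul_smul (τ * δ) δ e₁, mul_assoc, hδ2]
        module
      · rw [map_smul, A1]
        module

/-- the final step for a basis of eigenvectors -/
theorem last [FiniteDimensional ℝ U] (hreH : S_reH) {h n : Submodule ℝ (End ℝ U)} (D : Dat B h n)
    {x : End ℝ U} (hx : x ∈ n) {e₁' f₁' e₂' f₂' : U} (H : Hyp2 B e₁' f₁' e₂' f₂')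
    (he1 : x e₁' = e₁') (hf1 : x f₁' = -f₁') (he2 : x e₂' = e₂') (hf2 : x f₂' = -f₂')
    {A : End ℝ U} (hA : A ∈ h) {l₁ l₂ : ℝ} (hl : l₁ ≠ l₂) (ae1 : A e₁' = l₁ • e₁')
    (af1 : A f₁' = -(l₁ • f₁')) (ae2 : A e₂' = l₂ • e₂') (af2 : A f₂' = -(l₂ • f₂')) :
    ∃ e f : U, Hyp B e f ∧ wedge B f e ∈ n := by
  refine ⟨e₁', f₁', H.2.1, ?_⟩
  have := hreH U B h n D e₁' f₁' e₂' f₂' H (A - l₂ • x)
    (h.sub_mem hA (h.smul_mem _ (D.sub hx))) (l₁ - l₂) 0 ?_ ?_ ?_ ?_
  · rw [zero_smul, add_zero] at this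
    have h2 := n.smul_mem (l₁ - l₂)⁻¹ this
    rwa [smul_smul, inv_mul_cancel₀ (sub_ne_zero.2 hl), one_smul] at h2
  · rw [LinearMap.sub_apply, LinearMap.smul_apply, ae1, he1]; module
  · rw [LinearMap.sub_apply, LinearMap.smul_apply, af1, hf1]; module
  · rw [LinearMap.sub_apply, LinearMap.smul_apply, ae2, he2]; module
  · rw [LinearMap.sub_apply, LinearMap.smul_apply, af2, hf2]; module

/-- the case of a non-zero lower left entry -/
theorem lastc [FiniteDimensional ℝ U] (hreH : S_reH) {h n : Submodule ℝ (End ℝ U)}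
    (D : Dat B h n)
    (T : Tab B e₁ f₁ e₂ f₂) (hx : wedge B f₁ e₁ + wedge B f₂ e₂ ∈ n) {A : End ℝ U} (hAh : A ∈ h)
    (hA : Hom (wedge B f₁ e₁ + wedge B f₂ e₂) 0 A)
    (hd : 0 < (B f₁ (A e₁) - B f₂ (A e₂)) ^ 2 + 4 * (B f₁ (A e₂) * B f₂ (A e₁)))
    (hc : B f₂ (A e₁) ≠ 0) : ∃ e f : U, Hyp B e f ∧ wedge B f e ∈ n := by
  have hxe1 : (wedge B f₁ e₁ + wedge B f₂ e₂) e₁ = (1 : ℝ) • e₁ := by rw [T.xe1, one_smul]
  have hxe2 : (wedge B f₁ e₁ + wedge B f₂ e₂) e₂ = (1 : ℝ) • e₂ := by rw [T.xe2, one_smul]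
  obtain ⟨p, hp⟩ : ∃ p, p = (B f₁ (A e₁) - B f₂ (A e₂)) / 2 := ⟨_, rfl⟩
  obtain ⟨s, hs⟩ : ∃ p, p = (B f₁ (A e₁) + B f₂ (A e₂)) / 2 := ⟨_, rfl⟩
  obtain ⟨b, hb⟩ : ∃ q, q = B f₁ (A e₂) := ⟨_, rfl⟩
  obtain ⟨c, hc'⟩ : ∃ q, q = B f₂ (A e₁) := ⟨_, rfl⟩
  rw [← hc'] at hc
  have E1 : A e₁ = (s + p) • e₁ + c • e₂ := by
    rw [T.pres hA hxe1, hc', hs, hp]
    congr 2
    ring
  have E2 : A e₂ = b • e₁ + (s - p) • e₂ := by
    rw [T.pres hA hxe2, hb, hs, hp]
    congr 2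
    ring
  have hD : 0 < p ^ 2 + b * c := by
    rw [← hc', ← hb] at hd
    have h2 : B f₁ (A e₁) - B f₂ (A e₂) = 2 * p := by rw [hp]; ring
    rw [h2] at hd
    nlinarith
  obtain ⟨δ, hδ⟩ : ∃ δ, δ = Real.sqrt (p ^ 2 + b * c) := ⟨_, rfl⟩
  have hδ2 : δ * δ = p ^ 2 + b * c := by
    rw [hδ]; exact Real.mul_self_sqrt (by linarith)
  have hδ0 : 0 < δ := by rw [hδ]; exact Real.sqrt_pos.2 hD
  obtain ⟨k, hk⟩ : ∃ k, k = (2 * δ * c)⁻¹ := ⟨_, rfl⟩
  have hk1 : k * (2 * δ * c) = 1 := by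
    rw [hk]; exact inv_mul_cancel₀ (mul_ne_zero (by linarith) hc)
  have hskew := D.skew A hAh
  obtain ⟨E, hE⟩ : ∃ E, E = (p + δ) • e₁ + c • e₂ := ⟨_, rfl⟩
  obtain ⟨E', hE'⟩ : ∃ E, E = (p - δ) • e₁ + c • e₂ := ⟨_, rfl⟩
  obtain ⟨F, hF⟩ : ∃ E, E = (k * c) • f₁ - (k * (p - δ)) • f₂ := ⟨_, rfl⟩
  obtain ⟨F', hF'⟩ : ∃ E, E = (k * (p + δ)) • f₂ - (k * c) • f₁ := ⟨_, rfl⟩
  have b1 : B E F = 1 := by
    rw [hE, hF]
    simp only [map_add, map_sub, map_smul, LinearMap.add_apply, LinearMap.smul_apply,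
      smul_eq_mul, T.a12, T.a14, T.a32, T.a34]
    linear_combination hk1
  have b2 : B E F' = 0 := by
    rw [hE, hF']
    simp only [map_add, map_sub, map_smul, LinearMap.add_apply, LinearMap.smul_apply,
      smul_eq_mul, T.a12, T.a14, T.a32, T.a34]
    ring
  have b3 : B E' F = 0 := by
    rw [hE', hF]
    simp only [map_add, map_sub, map_smul, LinearMap.add_apply, LinearMap.smul_apply,
      smul_eq_mul, T.a12, T.a14, T.a32, T.a34]
    ring
  have b4 : B E' F' = 1 := by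
    rw [hE', hF']
    simp only [map_add, map_sub, map_smul, LinearMap.add_apply, LinearMap.smul_apply,
      smul_eq_mul, T.a12, T.a14, T.a32, T.a34]
    linear_combination hk1
  have b5 : B E E = 0 := by
    rw [hE]
    simp only [map_add, map_sub, map_smul, LinearMap.add_apply, LinearMap.smul_apply,
      smul_eq_mul, T.a11, T.a13, T.a31, T.a33]
    ring
  have b6 : B E' E' = 0 := by
    rw [hE']
    simp only [map_add, map_sub, map_smul, LinearMap.add_apply, LinearMap.smul_apply,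
      smul_eq_mul, T.a11, T.a13, T.a31, T.a33]
    ring
  have b7 : B E E' = 0 := by
    rw [hE, hE']
    simp only [map_add, map_sub, map_smul, LinearMap.add_apply, LinearMap.smul_apply,
      smul_eq_mul, T.a11, T.a13, T.a31, T.a33]
    ring
  have b8 : B F F = 0 := by
    rw [hF]
    simp only [map_add, map_sub, map_smul, LinearMap.sub_apply, LinearMap.smul_apply,
      smul_eq_mul, T.a22, T.a24, T.a42, T.a44]
    ring
  have b9 : B F' F' = 0 := by
    rw [hF']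
    simp only [map_add, map_sub, map_smul, LinearMap.sub_apply, LinearMap.smul_apply,
      smul_eq_mul, T.a22, T.a24, T.a42, T.a44]
    ring
  have b10 : B F F' = 0 := by
    rw [hF, hF']
    simp only [map_add, map_sub, map_smul, LinearMap.sub_apply, LinearMap.smul_apply,
      smul_eq_mul, T.a22, T.a24, T.a42, T.a44]
    ring
  have H : Hyp2 B E F E' F' := by
    refine ⟨T.sym, ⟨b5, b8, b1⟩, ⟨b6, b9, b4⟩, b7, b2, by rw [T.sym]; exact b3, b10, ?_⟩
    intro v hv h1 h2 h3 h4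
    rw [hE] at h1
    rw [hE'] at h3
    rw [hF] at h2
    rw [hF'] at h4
    simp only [map_add, map_sub, map_smul, LinearMap.add_apply, LinearMap.sub_apply,
      LinearMap.smul_apply, smul_eq_mul] at h1 h2 h3 h4
    have g1 : B e₁ v = 0 := by
      have : (2 * δ) * B e₁ v = 0 := by linarith
      rcases mul_eq_zero.1 this with h | h
      · linarith
      · exact h
    have g2 : B e₂ v = 0 := by
      rw [g1] at h1
      have : c * B e₂ v = 0 := by linarith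
      rcases mul_eq_zero.1 this with h | h
      · exact absurd h hc
      · exact h
    have g3 : B f₂ v = 0 := by
      have : k * (2 * δ * c) * B f₂ v = 0 := by
        have : k * (2 * δ * c) * B f₂ v = c * (k * c * B f₁ v - k * (p - δ) * B f₂ v +
          (k * (p + δ) * B f₂ v - k * c * B f₁ v)) := by ring
        rw [this, h2, h4]; ring
      rwa [hk1, one_mul] at this
    have g4 : B f₁ v = 0 := by
      rw [g3] at h2
      have : k * (2 * δ * c) * B f₁ v = 0 := by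
        have : k * (2 * δ * c) * B f₁ v = 2 * δ * (k * c * B f₁ v - k * (p - δ) * 0) := by ring
        rw [this, h2]; ring
      rwa [hk1, one_mul] at this
    exact T.neg v hv g1 g4 g2 g3
  have aE : A E = (s + δ) • E := by
    rw [hE, map_add, map_smul, map_smul, E1, E2]
    have : b * c = δ * δ - p ^ 2 := by linarith
    have e : (p + δ) • ((s + p) • e₁ + c • e₂) + c • (b • e₁ + (s - p) • e₂) =
      ((p + δ) * (s + p) + b * c) • e₁ + ((p + δ) * c + c * (s - p)) • e₂ := by module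
    rw [e, this]; module
  have aE' : A E' = (s - δ) • E' := by
    rw [hE', map_add, map_smul, map_smul, E1, E2]
    have : b * c = δ * δ - p ^ 2 := by linarith
    have e : (p - δ) • ((s + p) • e₁ + c • e₂) + c • (b • e₁ + (s - p) • e₂) =
      ((p - δ) * (s + p) + b * c) • e₁ + ((p - δ) * c + c * (s - p)) • e₂ := by module
    rw [e, this]; module
  have xE : (wedge B f₁ e₁ + wedge B f₂ e₂) E = E := by
    rw [hE, map_add, map_smul, map_smul, T.xe1, T.xe2]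
  have xE' : (wedge B f₁ e₁ + wedge B f₂ e₂) E' = E' := by
    rw [hE', map_add, map_smul, map_smul, T.xe1, T.xe2]
  have xF : (wedge B f₁ e₁ + wedge B f₂ e₂) F = -F := by
    rw [hF, map_sub, map_smul, map_smul, T.xf1, T.xf2]; module
  have xF' : (wedge B f₁ e₁ + wedge B f₂ e₂) F' = -F' := by
    rw [hF', map_sub, map_smul, map_smul, T.xf1, T.xf2]; module
  -- a vector of the minus plane orthogonal to E, E' is zero
  have key : ∀ w, (wedge B f₁ e₁ + wedge B f₂ e₂) w = (-1 : ℝ) • w → B E w = 0 → B E' w = 0 →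
      w = 0 := by
    intro w hw h1 h3
    rw [hE] at h1
    rw [hE'] at h3
    simp only [map_add, map_smul, LinearMap.add_apply,
      LinearMap.smul_apply, smul_eq_mul] at h1 h3
    have g1 : B e₁ w = 0 := by
      have : (2 * δ) * B e₁ w = 0 := by linarith
      rcases mul_eq_zero.1 this with h | h
      · linarith
      · exact h
    have g2 : B e₂ w = 0 := by
      rw [g1] at h1
      have : c * B e₂ w = 0 := by linarith
      rcases mul_eq_zero.1 this with h | h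
      · exact absurd h hc
      · exact h
    have := T.n5 hw
    rw [g1, g2] at this
    simpa using this
  have aF : A F = -((s + δ) • F) := by
    have h0 : A F + (s + δ) • F = 0 := by
      apply key
      · have h1 : (wedge B f₁ e₁ + wedge B f₂ e₂) (A F) = (-1 : ℝ) • A F := by
          have := hom_ev hA (u := F) (μ := -1) (by rw [xF]; simp)
          rwa [add_zero] at this
        rw [map_add, map_smul, h1, xF]; module
      · have h1 := hskew E F
        rw [aE] at h1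
        simp only [map_add, map_smul, LinearMap.smul_apply, smul_eq_mul] at h1 ⊢
        linarith
      · have h1 := hskew E' F
        rw [aE'] at h1
        simp only [map_add, map_smul, LinearMap.smul_apply, smul_eq_mul] at h1 ⊢
        rw [b3] at h1 ⊢
        linarith
    exact eq_neg_of_add_eq_zero_left h0
  have aF' : A F' = -((s - δ) • F') := by
    have h0 : A F' + (s - δ) • F' = 0 := by
      apply key
      · have h1 : (wedge B f₁ e₁ + wedge B f₂ e₂) (A F') = (-1 : ℝ) • A F' := by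
          have := hom_ev hA (u := F') (μ := -1) (by rw [xF']; simp)
          rwa [add_zero] at this
        rw [map_add, map_smul, h1, xF']; module
      · have h1 := hskew E F'
        rw [aE] at h1
        simp only [map_add, map_smul, LinearMap.smul_apply, smul_eq_mul] at h1 ⊢
        rw [b2] at h1 ⊢
        linarith
      · have h1 := hskew E' F'
        rw [aE'] at h1
        simp only [map_add, map_smul, LinearMap.smul_apply, smul_eq_mul] at h1 ⊢
        linarith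
    exact eq_neg_of_add_eq_zero_left h0
  exact last hreH D hx H xE xF xE' xF' hAh (l₁ := s + δ) (l₂ := s - δ) (by intro h; linarith)
    aE aF aE' aF'

end

/-- K3-EQ -/
theorem eq : S_clos → S_reH → S_eq := by
  intro hclos hreH U _ _ _ B h n D e₁ f₁ e₂ f₂ H hx
  have T := tab H
  obtain ⟨A, hAh, hA, hd⟩ := exists_disc hclos D T hx
  by_cases hc : B f₂ (A e₁) = 0
  · by_cases hb : B f₁ (A e₂) = 0
    · -- diagonal
      have hxe1 : (wedge B f₁ e₁ + wedge B f₂ e₂) e₁ = (1 : ℝ) • e₁ := by rw [T.xe1, one_smul]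
      have hxe2 : (wedge B f₁ e₁ + wedge B f₂ e₂) e₂ = (1 : ℝ) • e₂ := by rw [T.xe2, one_smul]
      have hskew := D.skew A hAh
      have ae1 : A e₁ = B f₁ (A e₁) • e₁ := by
        have := T.pres hA hxe1
        rw [hc, zero_smul, add_zero] at this
        exact this
      have ae2 : A e₂ = B f₂ (A e₂) • e₂ := by
        have := T.pres hA hxe2
        rw [hb, zero_smul, zero_add] at this
        exact this
      obtain ⟨l₁, hl1⟩ : ∃ l, l = B f₁ (A e₁) := ⟨_, rfl⟩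
      obtain ⟨l₂, hl2⟩ : ∃ l, l = B f₂ (A e₂) := ⟨_, rfl⟩
      rw [← hl1] at ae1 hd
      rw [← hl2] at ae2 hd
      have hl : l₁ ≠ l₂ := by
        intro h
        rw [hb, h] at hd
        simp at hd
      have af1 : A f₁ = -(l₁ • f₁) := by
        have h1 : (wedge B f₁ e₁ + wedge B f₂ e₂) (A f₁) = (-1 : ℝ) • A f₁ := by
          have := hom_ev hA (u := f₁) (μ := -1) (by rw [T.xf1]; simp)
          rwa [add_zero] at this
        have h2 := T.n5 h1
        have h3 := hskew e₁ f₁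
        have h4 := hskew e₂ f₁
        rw [ae1, map_smul, LinearMap.smul_apply, T.a12] at h3
        rw [ae2, map_smul, LinearMap.smul_apply, T.a32] at h4
        simp only [smul_eq_mul, mul_one, mul_zero, zero_add] at h3 h4
        rw [h2, h4, show B e₁ (A f₁) = -l₁ by linarith]
        module
      have af2 : A f₂ = -(l₂ • f₂) := by
        have h1 : (wedge B f₁ e₁ + wedge B f₂ e₂) (A f₂) = (-1 : ℝ) • A f₂ := by
          have := hom_ev hA (u := f₂) (μ := -1) (by rw [T.xf2]; simp)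
          rwa [add_zero] at this
        have h2 := T.n5 h1
        have h3 := hskew e₁ f₂
        have h4 := hskew e₂ f₂
        rw [ae1, map_smul, LinearMap.smul_apply, T.a14] at h3
        rw [ae2, map_smul, LinearMap.smul_apply, T.a34] at h4
        simp only [smul_eq_mul, mul_one, mul_zero, zero_add] at h3 h4
        rw [h2, h3, show B e₂ (A f₂) = -l₂ by linarith]
        module
      exact last hreH D hx H T.xe1 T.xf1 T.xe2 T.xf2 hAh hl ae1 af1 ae2 af2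
    · -- exchange the two pairs
      have hx' : wedge B f₂ e₂ + wedge B f₁ e₁ ∈ n := by rw [add_comm]; exact hx
      refine lastc hreH D T.swap hx' hAh (by rw [add_comm]; exact hA) ?_ hb
      linarith [hd, sq_nonneg (B f₁ (A e₁) - B f₂ (A e₂)),
        show (B f₂ (A e₂) - B f₁ (A e₁)) ^ 2 = (B f₁ (A e₁) - B f₂ (A e₂)) ^ 2 by ring,
        show B f₂ (A e₁) * B f₁ (A e₂) = B f₁ (A e₂) * B f₂ (A e₁) by ring]
  · exact lastc hreH D T hx hAh hA hd hc

end Pool.Agent.W351.K3Eq
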